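import Pool.Agent.Helper88.Ric.Stmts

set_option autoImplicit false

open scoped ContDiff Manifold Topology MatrixGroups LinearAlgebra.Projectivization
open Complex

noncomputable section

namespace RicP

/-! Module DCURV: curvature of `potD` from the certified tensors. -/

/-- operators which are linear on smooth functions on `U` -/
structure DcurvOp (U : Set E) (op : (E → ℂ) → (E → ℂ)) : Prop where
  smooth : ∀ f, ContDiffOn ℝ ∞ f U → ContDiffOn ℝ ∞ (op f) U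
  congr : ∀ f g, Set.EqOn f g U → Set.EqOn (op f) (op g) U
  add : ∀ f g, ContDiffOn ℝ ∞ f U → ContDiffOn ℝ ∞ g U →
    Set.EqOn (op (f + g)) (op f + op g) U
  smul : ∀ (c : ℂ) (f), ContDiffOn ℝ ∞ f U → Set.EqOn (op (c • f)) (c • op f) U

lemma DcurvOp.comp {U : Set E} {op₁ op₂ : (E → ℂ) → (E → ℂ)} (h₁ : DcurvOp U op₁)
    (h₂ : DcurvOp U op₂) : DcurvOp U (fun f => op₁ (op₂ f)) where
  smooth f hf := h₁.smooth _ (h₂.smooth f hf)
  congr f g h := h₁.congr _ _ (h₂.congr f g h)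
  add f g hf hg := (h₁.congr _ _ (h₂.add f g hf hg)).trans
    (h₁.add _ _ (h₂.smooth f hf) (h₂.smooth g hg))
  smul c f hf := (h₁.congr _ _ (h₂.smul c f hf)).trans (h₁.smul c _ (h₂.smooth f hf))

lemma dcurv_id (U : Set E) : DcurvOp U (fun f => f) where
  smooth f hf := hf
  congr f g h := h
  add f g _ _ := fun _ _ => rfl
  smul c f _ := fun _ _ => rfl

lemma dcurv_fd {U : Set E} (hU : IsOpen U) {f : E → ℂ} (hf : ContDiffOn ℝ ∞ f U) (v : E) :
    ContDiffOn ℝ ∞ (fun p => fderiv ℝ f p v) U := by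
  have h1 : ContDiffOn ℝ ∞ (fderiv ℝ f) U := hf.fderiv_of_isOpen hU (by simp)
  exact h1.clm_apply contDiffOn_const

lemma dcurv_diff {U : Set E} (hU : IsOpen U) {f : E → ℂ} (hf : ContDiffOn ℝ ∞ f U) {p : E}
    (hp : p ∈ U) : DifferentiableAt ℝ f p :=
  (hf.contDiffAt (hU.mem_nhds hp)).differentiableAt (by simp)

lemma dcurv_dz {U : Set E} (hU : IsOpen U) (v : E) : DcurvOp U (dz v) where
  smooth f hf := by
    have h1 := dcurv_fd hU hf v
    have h2 := dcurv_fd hU hf (I • v)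
    exact (h1.sub (contDiffOn_const.mul h2)).div_const 2
  congr f g h p hp := by
    have h1 : f =ᶠ[𝓝 p] g := Filter.eventuallyEq_of_mem (hU.mem_nhds hp) h
    simp only [dz, h1.fderiv_eq]
  add f g hf hg p hp := by
    have h1 := fderiv_add (dcurv_diff hU hf hp) (dcurv_diff hU hg hp)
    simp only [dz, h1, Pi.add_apply, ContinuousLinearMap.add_apply]
    ring
  smul c f hf p hp := by
    have h1 := fderiv_const_smul (dcurv_diff hU hf hp) c
    simp only [dz, h1, Pi.smul_apply, ContinuousLinearMap.smul_apply, smul_eq_mul]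
    ring

lemma dcurv_dzb {U : Set E} (hU : IsOpen U) (v : E) : DcurvOp U (dzb v) where
  smooth f hf := by
    have h1 := dcurv_fd hU hf v
    have h2 := dcurv_fd hU hf (I • v)
    exact (h1.add (contDiffOn_const.mul h2)).div_const 2
  congr f g h p hp := by
    have h1 : f =ᶠ[𝓝 p] g := Filter.eventuallyEq_of_mem (hU.mem_nhds hp) h
    simp only [dzb, h1.fderiv_eq]
  add f g hf hg p hp := by
    have h1 := fderiv_add (dcurv_diff hU hf hp) (dcurv_diff hU hg hp)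
    simp only [dzb, h1, Pi.add_apply, ContinuousLinearMap.add_apply]
    ring
  smul c f hf p hp := by
    have h1 := fderiv_const_smul (dcurv_diff hU hf hp) c
    simp only [dzb, h1, Pi.smul_apply, ContinuousLinearMap.smul_apply, smul_eq_mul]
    ring

lemma dcurv_dI {U : Set E} (hU : IsOpen U) (K : Fin 6) : DcurvOp U (dI K) := by
  fin_cases K
  · exact dcurv_id U
  · exact dcurv_dz hU _
  · exact dcurv_dz hU _
  · exact (dcurv_dz hU _).comp (dcurv_dz hU _)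
  · exact (dcurv_dz hU _).comp (dcurv_dz hU _)
  · exact (dcurv_dz hU _).comp (dcurv_dz hU _)

lemma dcurv_dJ {U : Set E} (hU : IsOpen U) (K : Fin 6) : DcurvOp U (dJ K) := by
  fin_cases K
  · exact dcurv_id U
  · exact dcurv_dzb hU _
  · exact dcurv_dzb hU _
  · exact (dcurv_dzb hU _).comp (dcurv_dzb hU _)
  · exact (dcurv_dzb hU _).comp (dcurv_dzb hU _)
  · exact (dcurv_dzb hU _).comp (dcurv_dzb hU _)

lemma dcurv_toC {U : Set E} {φ : E → ℝ} (hφ : ContDiffOn ℝ ∞ φ U) :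
    ContDiffOn ℝ ∞ (toC φ) U :=
  Complex.ofRealCLM.contDiff.comp_contDiffOn hφ

lemma dcurv_jet_add {U : Set E} (hU : IsOpen U) {φ ψ : E → ℝ} (hφ : ContDiffOn ℝ ∞ φ U)
    (hψ : ContDiffOn ℝ ∞ ψ U) {p : E} (hp : p ∈ U) (K J : Fin 6) :
    jet (fun y => φ y + ψ y) p K J = jet φ p K J + jet ψ p K J := by
  have h := ((dcurv_dI hU K).comp (dcurv_dJ hU J)).add (toC φ) (toC ψ) (dcurv_toC hφ)
    (dcurv_toC hψ) hp
  have e : toC (fun y => φ y + ψ y) = toC φ + toC ψ := by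
    funext y; simp [toC]
  unfold jet
  rw [e]
  exact h

lemma dcurv_jet_smul {U : Set E} (hU : IsOpen U) {φ : E → ℝ} (hφ : ContDiffOn ℝ ∞ φ U)
    (c : ℝ) {p : E} (hp : p ∈ U) (K J : Fin 6) :
    jet (fun y => c * φ y) p K J = (c : ℂ) * jet φ p K J := by
  have h := ((dcurv_dI hU K).comp (dcurv_dJ hU J)).smul (c : ℂ) (toC φ) (dcurv_toC hφ) hp
  have e : toC (fun y => c * φ y) = (c : ℂ) • toC φ := by
    funext y; simp [toC]
  unfold jet
  rw [e]
  exact h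

lemma dcurv_add {U : Set E} (hU : IsOpen U) {φ ψ : E → ℝ} (hφ : ContDiffOn ℝ ∞ φ U)
    (hψ : ContDiffOn ℝ ∞ ψ U) {p : E} (hp : p ∈ U) {s t : Ten} (hs : HasTen φ p s)
    (ht : HasTen ψ p t) : HasTen (fun y => φ y + ψ y) p (s + t) := by
  obtain ⟨s0, s1, s1', s2, s3, s4, s5, s6, s7, s8, s9, s10, s10', s11, s11', s12, s13, s13', s14⟩ :=
    hs
  obtain ⟨t0, t1, t1', t2, t3, t4, t5, t6, t7, t8, t9, t10, t10', t11, t11', t12, t13, t13', t14⟩ :=
    ht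
  unfold HasTen
  simp only [dcurv_jet_add hU hφ hψ hp, s0, s1, s1', s2, s3, s4, s5, s6, s7, s8, s9, s10, s10',
    s11, s11', s12, s13, s13', s14, t0, t1, t1', t2, t3, t4, t5, t6, t7, t8, t9, t10, t10', t11,
    t11', t12, t13, t13', t14, Pi.add_apply, Complex.ofReal_add, and_self]

lemma dcurv_smul {U : Set E} (hU : IsOpen U) {φ : E → ℝ} (hφ : ContDiffOn ℝ ∞ φ U) (c : ℝ)
    {p : E} (hp : p ∈ U) {s : Ten} (hs : HasTen φ p s) : HasTen (fun y => c * φ y) p (c • s) := by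
  obtain ⟨s0, s1, s1', s2, s3, s4, s5, s6, s7, s8, s9, s10, s10', s11, s11', s12, s13, s13', s14⟩ :=
    hs
  unfold HasTen
  simp only [dcurv_jet_smul hU hφ c hp, s0, s1, s1', s2, s3, s4, s5, s6, s7, s8, s9, s10, s10',
    s11, s11', s12, s13, s13', s14, Pi.smul_apply, smul_eq_mul, Complex.ofReal_mul, and_self]

lemma dcurv_monJ (a b : ℕ) (x y : ℝ) (K J : Fin 6) : monJ a b x y K J = monJ a b x y J K := by
  unfold monJ
  rw [Nat.sub_right_comm (2 * a), Nat.sub_right_comm (2 * b)]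
  ring

lemma dcurv_momZ (k : ℕ) (x y : ℝ) (K J : Fin 6) : momZ k x y K J = momZ k x y J K := by
  unfold momZ
  exact tsum_congr fun n => dcurv_monJ _ _ x y K J

lemma dcurv_momB (k : ℕ) (x y : ℝ) (K J : Fin 6) : momB k x y K J = momB k x y J K := by
  unfold momB
  rw [dcurv_monJ, dcurv_monJ k k]

lemma dcurv_open : IsOpen {p : E | ‖p.1 * p.2‖ < 1} :=
  isOpen_lt (by fun_prop) continuous_const

lemma dcurv_smB (j : ℕ) : ContDiffOn ℝ ∞ (fun p : E => 1 - ‖p.1 * p.2‖ ^ (2 * j))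
    {p : E | ‖p.1 * p.2‖ < 1} := by
  have h : ContDiff ℝ ∞ (fun p : E => 1 - (‖p.1 * p.2‖ ^ 2) ^ j) := by
    have h1 : ContDiff ℝ ∞ (fun p : E => ‖p.1 * p.2‖ ^ 2) :=
      (contDiff_norm_sq ℝ).comp (contDiff_fst.mul contDiff_snd)
    exact contDiff_const.sub (h1.pow j)
  have e : (fun p : E => 1 - ‖p.1 * p.2‖ ^ (2 * j)) = fun p : E => 1 - (‖p.1 * p.2‖ ^ 2) ^ j := by
    funext p; rw [pow_mul]
  rw [e]
  exact h.contDiffOn

lemma dcurv_posB (j : ℕ) (hj : 1 ≤ j) (p : E) (hp : ‖p.1 * p.2‖ < 1) :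
    0 < 1 - ‖p.1 * p.2‖ ^ (2 * j) := by
  have : ‖p.1 * p.2‖ ^ (2 * j) < 1 := pow_lt_one₀ (norm_nonneg _) hp (by omega)
  linarith

theorem st_DCURV (hjet : ST_JET) (hrot : ST_ROT) (hlog : ST_LOGJ) (hzj : ST_ZJET)
    (hzs : ST_ZSM) (hsmd : ST_SMD) : ST_DCURV := by
  intro p hp hcond
  set U : Set E := {p : E | ‖p.1 * p.2‖ < 1} with hU
  have hUo : IsOpen U := dcurv_open
  have hpU : p ∈ U := hp
  have hpolar : ∀ u v : ℂ, ‖u‖ = 1 → ‖v‖ = 1 → ∀ q : E, q ∈ U → (u * q.1, v * q.2) ∈ U ∧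
      potD (u * q.1, v * q.2) = potD q := by
    intro u v hu hv q hq
    have e1 : ‖u * q.1‖ = ‖q.1‖ := by rw [norm_mul, hu, one_mul]
    have e2 : ‖v * q.2‖ = ‖q.2‖ := by rw [norm_mul, hv, one_mul]
    have e3 : ‖u * q.1 * (v * q.2)‖ = ‖q.1 * q.2‖ := by rw [norm_mul, e1, e2, norm_mul]
    have e4 : ∀ k, Zk k (u * q.1, v * q.2) = Zk k q := by
      intro k; simp only [Zk, e1, e2]
    refine ⟨?_, ?_⟩
    · show ‖u * q.1 * (v * q.2)‖ < 1
      rw [e3]; exact hq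
    · simp only [potD, e3, e4]
  refine hrot potD U hUo hsmd hpolar p hpU ?_
  set x : ℝ := ‖p.1‖ with hx
  set y : ℝ := ‖p.2‖ with hy
  have hx0 : 0 ≤ x := norm_nonneg _
  have hy0 : 0 ≤ y := norm_nonneg _
  have hxy : x * y < 1 := by rw [hx, hy, ← norm_mul]; exact hp
  have hq : ((x : ℂ), (y : ℂ)) ∈ U := by
    show ‖(x : ℂ) * (y : ℂ)‖ < 1
    rw [norm_mul, Complex.norm_of_nonneg hx0, Complex.norm_of_nonneg hy0]
    exact hxy
  have hZs : ∀ k : ℕ, 1 ≤ k → ContDiffOn ℝ ∞ (fun q => Real.log (Zk k q)) U := fun k hk =>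
    ((hzs k hk).1).log fun q hq' => ((hzs k hk).2 q hq').ne'
  have hBs : ∀ j : ℕ, 1 ≤ j →
      ContDiffOn ℝ ∞ (fun q : E => Real.log (1 - ‖q.1 * q.2‖ ^ (2 * j))) U := fun j hj =>
    (dcurv_smB j).log fun q hq' => (dcurv_posB j hj q hq').ne'
  have hZ : ∀ k : ℕ, 1 ≤ k → HasTen (fun q => Real.log (Zk k q)) ((x : ℂ), (y : ℂ))
      (logTen (momZ k x y)) := fun k hk =>
    hlog (Zk k) U hUo (hzs k hk).1 (hzs k hk).2 _ hq _ (dcurv_momZ k x y)
      (hzj k hk x y hx0 hy0 hxy).1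
  have hB : ∀ j : ℕ, 1 ≤ j → HasTen (fun q : E => Real.log (1 - ‖q.1 * q.2‖ ^ (2 * j)))
      ((x : ℂ), (y : ℂ)) (logTen (momB j x y)) := fun j hj =>
    hlog (fun q : E => 1 - ‖q.1 * q.2‖ ^ (2 * j)) U hUo (dcurv_smB j) (dcurv_posB j hj) _ hq _
      (dcurv_momB j x y) (hzj j hj x y hx0 hy0 hxy).2
  have s1 := fun (c : ℝ) (k : ℕ) (hk : 1 ≤ k) => dcurv_smul hUo (hZs k hk) c hq (hZ k hk)
  have s1' : ∀ (c : ℝ) (k : ℕ) (_ : 1 ≤ k), ContDiffOn ℝ ∞ (fun q => c * Real.log (Zk k q)) U :=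
    fun c k hk => contDiffOn_const.mul (hZs k hk)
  have s2 := fun (c : ℝ) (j : ℕ) (hj : 1 ≤ j) => dcurv_smul hUo (hBs j hj) c hq (hB j hj)
  have s2' : ∀ (c : ℝ) (j : ℕ) (_ : 1 ≤ j),
      ContDiffOn ℝ ∞ (fun q : E => c * Real.log (1 - ‖q.1 * q.2‖ ^ (2 * j))) U :=
    fun c j hj => contDiffOn_const.mul (hBs j hj)
  have a1 := dcurv_add hUo (s1' 4 1 le_rfl) (s1' 10 2 (by norm_num)) hq (s1 4 1 le_rfl)
    (s1 10 2 (by norm_num))
  have a1' := (s1' 4 1 le_rfl).add (s1' 10 2 (by norm_num))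
  have a2 := dcurv_add hUo a1' (s1' 8 4 (by norm_num)) hq a1 (s1 8 4 (by norm_num))
  have a2' := a1'.add (s1' 8 4 (by norm_num))
  have a3 := dcurv_add hUo a2' (s2' (-5) 1 le_rfl) hq a2 (s2 (-5) 1 le_rfl)
  have a3' := a2'.add (s2' (-5) 1 le_rfl)
  have a4 := dcurv_add hUo a3' (s2' (-7) 4 (by norm_num)) hq a3 (s2 (-7) 4 (by norm_num))
  have hfin : HasTen potD ((x : ℂ), (y : ℂ)) (tenD x y) := by
    have e1 : potD = fun q : E => 4 * Real.log (Zk 1 q) + 10 * Real.log (Zk 2 q)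
        + 8 * Real.log (Zk 4 q) + -5 * Real.log (1 - ‖q.1 * q.2‖ ^ (2 * 1))
        + -7 * Real.log (1 - ‖q.1 * q.2‖ ^ (2 * 4)) := by
      funext q
      simp only [potD]
      ring
    have e2 : tenD x y = (4 : ℝ) • logTen (momZ 1 x y) + (10 : ℝ) • logTen (momZ 2 x y)
        + (8 : ℝ) • logTen (momZ 4 x y) + (-5 : ℝ) • logTen (momB 1 x y)
        + (-7 : ℝ) • logTen (momB 4 x y) := by
      unfold tenD
      rw [neg_smul, neg_smul, sub_eq_add_neg, sub_eq_add_neg]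
    rw [e1, e2]
    exact a4
  exact hjet potD U hUo hsmd _ hq _ hfin hcond

end RicP
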