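import Pool.Agent.Helper88.Ric.Stmts

set_option autoImplicit false

open scoped ContDiff Manifold Topology MatrixGroups LinearAlgebra.Projectivization
open Complex

noncomputable section

namespace RicP

/-! Module PHISH: shift of the potential in the node charts. -/

lemma phish_toNat1 (n : ℤ) : ((n * (n + 1)).toNat : ℤ) = n * (n + 1) := by
  apply Int.toNat_of_nonneg
  rcases le_or_gt 0 n with h | h
  · positivity
  · nlinarith

lemma phish_toNat2 (n : ℤ) : ((n * (n - 1)).toNat : ℤ) = n * (n - 1) := by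
  apply Int.toNat_of_nonneg
  rcases le_or_gt 1 n with h | h
  · nlinarith
  · nlinarith

lemma phish_term (k : ℕ) (x y : ℝ) (hy : 0 < y) (n : ℤ) :
    (y⁻¹) ^ (k * ((n + 1) * ((n + 1) + 1)).toNat) *
      (x * y ^ 2) ^ (k * ((n + 1) * ((n + 1) - 1)).toNat)
    = (y ^ (2 * k))⁻¹ * (x ^ (k * (n * (n + 1)).toNat) * y ^ (k * (n * (n - 1)).toNat)) := by
  have e1 : (n + 1) * ((n + 1) - 1) = n * (n + 1) := by ring
  rw [e1, mul_pow, ← pow_mul]
  set a : ℕ := ((n + 1) * ((n + 1) + 1)).toNat with ha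
  set b : ℕ := (n * (n + 1)).toNat with hb
  set c : ℕ := (n * (n - 1)).toNat with hc
  have ha' : (a : ℤ) = (n + 1) * ((n + 1) + 1) := phish_toNat1 (n + 1)
  have hb' : (b : ℤ) = n * (n + 1) := phish_toNat1 n
  have hc' : (c : ℤ) = n * (n - 1) := phish_toNat2 n
  have hrel : (2 * b + 2 : ℤ) = c + a := by
    rw [ha', hb', hc']; ring
  have hrel' : 2 * b + 2 = c + a := by exact_mod_cast hrel
  have h1 : y ^ (2 * (k * b)) * y ^ (2 * k) = y ^ (k * c) * y ^ (k * a) := by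
    rw [← pow_add, ← pow_add]
    congr 1
    calc 2 * (k * b) + 2 * k = k * (2 * b + 2) := by ring
      _ = k * (c + a) := by rw [hrel']
      _ = k * c + k * a := by ring
  have hya : y ^ (k * a) ≠ 0 := (pow_pos hy _).ne'
  have hyk : y ^ (2 * k) ≠ 0 := (pow_pos hy _).ne'
  rw [inv_pow]
  field_simp
  linear_combination (x ^ (k * b)) * h1

lemma phish_Zk (k : ℕ) (p : E) (hp : p.2 ≠ 0) :
    Zk k (p.2⁻¹, p.1 * p.2 ^ 2) = (‖p.2‖ ^ (2 * k))⁻¹ * Zk k p := by
  have hy : 0 < ‖p.2‖ := norm_pos_iff.mpr hp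
  unfold Zk
  rw [← tsum_mul_left]
  rw [← (Equiv.addRight (1 : ℤ)).tsum_eq (fun n : ℤ => ‖p.2⁻¹‖ ^ (k * (n * (n + 1)).toNat) *
    ‖p.1 * p.2 ^ 2‖ ^ (k * (n * (n - 1)).toNat))]
  apply tsum_congr
  intro n
  have := phish_term k ‖p.1‖ ‖p.2‖ hy n
  simpa [Equiv.coe_addRight, norm_inv, norm_mul, norm_pow] using this

theorem st_PHISH (hz : ST_ZSM) : ST_PHISH := by
  intro p hp hpq
  have hy : 0 < ‖p.2‖ := norm_pos_iff.mpr hp
  have hprod : p.2⁻¹ * (p.1 * p.2 ^ 2) = p.1 * p.2 := by field_simp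
  have hlog : ∀ k : ℕ, 1 ≤ k → Real.log (Zk k (p.2⁻¹, p.1 * p.2 ^ 2))
      = Real.log (Zk k p) - 2 * k * Real.log ‖p.2‖ := by
    intro k hk
    rw [phish_Zk k p hp, Real.log_mul (inv_ne_zero (pow_pos hy _).ne') ((hz k hk).2 p hpq).ne',
      Real.log_inv, Real.log_pow]
    push_cast
    ring
  unfold potD
  simp only [hprod]
  rw [hlog 1 le_rfl, hlog 2 (by norm_num), hlog 4 (by norm_num)]
  push_cast
  ring

end RicP
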