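import Pool.Agent.Helper88.Ric.Stmts

set_option autoImplicit false

open scoped ContDiff Manifold Topology MatrixGroups LinearAlgebra.Projectivization
open Complex

noncomputable section

namespace RicP

/-! Module RCOV: every point is related to a point of one of the compact sets. -/

lemma rcov_jj_ne (γ : SL(2, ℤ)) (τ : ℂ) (hτ : 0 < τ.im) : jj γ τ ≠ 0 := by
  intro h
  have him : ((γ 1 0 : ℤ) : ℝ) * τ.im = 0 := by
    have := congrArg Complex.im h
    simpa [jj] using this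
  have hc : (γ 1 0 : ℤ) = 0 := by
    rcases mul_eq_zero.mp him with h0 | h0
    · exact_mod_cast h0
    · exact absurd h0 hτ.ne'
  have hd : (γ 1 1 : ℤ) = 0 := by
    have h1 : jj γ τ = ((γ 1 1 : ℤ) : ℂ) := by simp [jj, hc]
    rw [h1] at h
    exact_mod_cast h
  have hdet := γ.det_coe
  rw [Matrix.det_fin_two] at hdet
  simp [hc, hd] at hdet

lemma rcov_jj_one (τ : ℂ) : jj 1 τ = 1 := by simp [jj]
lemma rcov_mob_one (τ : ℂ) : mob 1 τ = τ := by simp [mob]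

/-- reduction of the second coordinate -/
lemma rcov_par (τ w : ℂ) (hτ : 0 < τ.im) : ∃ (m n : ℤ) (α β : ℝ), 0 ≤ α ∧ α ≤ 1 ∧ 0 ≤ β ∧ β ≤ 1 ∧
    w + (m : ℂ) * τ + (n : ℂ) = (α : ℂ) * τ + (β : ℂ) := by
  set a : ℝ := w.im / τ.im with ha
  set b : ℝ := w.re - a * τ.re with hb
  have hw : w = (a : ℂ) * τ + (b : ℂ) := by
    apply Complex.ext
    · simp [hb]
    · simp [ha, div_mul_cancel₀ _ hτ.ne']
  refine ⟨-⌊a⌋, -⌊b⌋, Int.fract a, Int.fract b, Int.fract_nonneg a, (Int.fract_lt_one a).le,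
    Int.fract_nonneg b, (Int.fract_lt_one b).le, ?_⟩
  have h1 : ((Int.fract a : ℝ) : ℂ) = (a : ℂ) - ((⌊a⌋ : ℤ) : ℂ) := by
    rw [Int.fract]; push_cast; ring
  have h2 : ((Int.fract b : ℝ) : ℂ) = (b : ℂ) - ((⌊b⌋ : ℤ) : ℂ) := by
    rw [Int.fract]; push_cast; ring
  rw [h1, h2, hw]
  push_cast
  ring

variable {M : ModData} {N : ℕ}

/-- lattice translates are related -/
lemma rcov_latt (t : ℝ) (q : QN M N) (τ w : ℂ) (m n : ℤ) :
    GR M t q q (τ, w) (τ, w + (m : ℂ) * τ + (n : ℂ)) := by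
  refine ⟨1, m, n, by simp, by simp [rcov_mob_one], ?_⟩
  simp only [rcov_jj_one]
  ring

lemma rcov_red (hg : ST_GREQ) (t : ℝ) (q : QN M N) (x : E) (hx : 0 < x.1.im) (γ : SL(2, ℤ))
    (q' : QN M N) (hq : (q : SL(2, ZMod N) × ℂˣ) = (q' : SL(2, ZMod N) × ℂˣ) * hN M N γ) :
    ∃ y : E, GR M t q q' x y ∧ y.1 = mob γ x.1 ∧
      ∃ α β : ℝ, 0 ≤ α ∧ α ≤ 1 ∧ 0 ≤ β ∧ β ≤ 1 ∧ y.2 = (α : ℂ) * y.1 + (β : ℂ) := by
  obtain ⟨hrefl, hsymm, htrans⟩ := hg M N t
  have hj := rcov_jj_ne γ x.1 hx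
  set w : ℂ := sF M t (zet M q') (mob γ x.1) + (x.2 - sF M t (zet M q) x.1) / jj γ x.1 with hw
  have h1 : GR M t q q' x (mob γ x.1, w) := by
    refine ⟨γ, 0, 0, hq, rfl, ?_⟩
    simp only [hw]
    field_simp
    push_cast
    ring
  have him : 0 < (mob γ x.1).im := (hsymm q q' x _ hx h1).1
  obtain ⟨m, n, α, β, h01, h02, h03, h04, he⟩ := rcov_par (mob γ x.1) w him
  refine ⟨(mob γ x.1, w + (m : ℂ) * mob γ x.1 + (n : ℂ)),
    htrans q q' q' x _ _ hx h1 (rcov_latt t q' _ w m n), rfl, α, β, h01, h02, h03, h04, he⟩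

/-- `q = q' hN γ` for a suitable `q'` -/
lemma rcov_q (q : QN M N) (γ : SL(2, ℤ)) : ∃ q' : QN M N,
    (q : SL(2, ZMod N) × ℂˣ) = (q' : SL(2, ZMod N) × ℂˣ) * hN M N γ := by
  refine ⟨q * ((hN M N).rangeRestrict γ)⁻¹, ?_⟩
  simp

lemma rcov_exp : Real.exp (-(23 / 25)) < 399 / 1000 := by
  have h := Real.sum_le_exp_of_nonneg (x := 23 / 25) (by norm_num) 6
  have h2 : (1000 : ℝ) / 399 < Real.exp (23 / 25) := by
    refine lt_of_lt_of_le ?_ h
    simp [Finset.sum_range_succ, Nat.factorial]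
    norm_num
  rw [Real.exp_neg]
  rw [inv_lt_comm₀ (Real.exp_pos _) (by norm_num)]
  calc ((399 : ℝ) / 1000)⁻¹ = 1000 / 399 := by norm_num
    _ < _ := h2

lemma rcov_norm (k : ZMod N) (p x₀ : E) (h : D0 k p x₀) :
    ‖p.1 * p.2‖ = Real.exp (-(4 * Real.pi * x₀.1.im / N) / 2) := by
  rw [← h.2.1, Complex.norm_exp]
  congr 1
  have : (2 * (Real.pi : ℂ) * I * x₀.1 / (N : ℂ)) = ((2 * Real.pi / N : ℝ) : ℂ) * (I * x₀.1) := by
    push_cast; ring
  rw [this, Complex.re_ofReal_mul]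
  simp
  ring

/-- high points are related to points of the compact polydisc -/
lemma rcov_high (hg : ST_GREQ) (hb : ST_BOR) (hN8 : 8 ≤ N) (t : ℝ) (q : QN M N) (x : E)
    (hx : 0 < x.1.im) (hL : 46 / 25 < 4 * Real.pi * x.1.im / N) :
    ∃ ck : Cusp M N × ZMod N, ∃ p ∈ KD, ∃ x₀, D0 ck.2 p x₀ ∧ GR M t q (cout M ck.1) x x₀ := by
  obtain ⟨hrefl, hsymm, htrans⟩ := hg M N t
  have hNpos : (0 : ℝ) < N := by exact_mod_cast (show 0 < N by omega)
  have : NeZero N := ⟨by omega⟩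
  -- the cusp
  set c : Cusp M N := (q : QN M N ⧸ HB M N) with hc
  have hmem : (cout M c)⁻¹ * q ∈ HB M N := by
    rw [← QuotientGroup.eq]
    exact QuotientGroup.out_eq' c
  obtain ⟨γ, hγ, hγe⟩ := Subgroup.mem_map.mp hmem
  have hqe : (q : SL(2, ZMod N) × ℂˣ) = (cout M c : SL(2, ZMod N) × ℂˣ) * hN M N γ := by
    have h1 : q = cout M c * (hN M N).rangeRestrict γ := by rw [hγe]; group
    have h2 := congrArg (Subtype.val) h1
    simpa using h2
  obtain ⟨y, hy, hy1, -⟩ := rcov_red hg t q x hx γ (cout M c) hqe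
  obtain ⟨s, -, -, -, hmob, -⟩ := hb M γ hγ
  have him : y.1.im = x.1.im := by
    rw [hy1, (hmob x.1).2]
    simp
  have hypos : 0 < y.1.im := by rw [him]; exact hx
  -- the numbers
  set Q : ℂ := exp (2 * Real.pi * I * y.1 / N) with hQ
  have hQn : ‖Q‖ = Real.exp (-(4 * Real.pi * x.1.im / N) / 2) := by
    rw [hQ, Complex.norm_exp]
    congr 1
    have : (2 * (Real.pi : ℂ) * I * y.1 / (N : ℂ)) = ((2 * Real.pi / N : ℝ) : ℂ) * (I * y.1) := by
      push_cast; ring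
    rw [this, Complex.re_ofReal_mul]
    simp [him]
    ring
  have hQ0 : Q ≠ 0 := Complex.exp_ne_zero _
  have hQ1 : ‖Q‖ < 399 / 1000 := by
    rw [hQn]
    refine lt_of_le_of_lt (Real.exp_le_exp.mpr ?_) rcov_exp
    linarith
  have hQpos : 0 < ‖Q‖ := norm_pos_iff.mpr hQ0
  have hlogQ : Real.log ‖Q‖ < 0 := Real.log_neg hQpos (by linarith)
  set Z : ℂ := exp (2 * Real.pi * I * y.2) with hZ
  have hZ0 : Z ≠ 0 := Complex.exp_ne_zero _
  have hZpos : 0 < ‖Z‖ := norm_pos_iff.mpr hZ0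
  set l : ℤ := ⌊Real.log ‖Z‖ / Real.log ‖Q‖⌋ with hl
  have hl1 : ‖Z‖ ≤ ‖Q‖ ^ l := by
    have h1 : (l : ℝ) ≤ Real.log ‖Z‖ / Real.log ‖Q‖ := Int.floor_le _
    have h2 : Real.log ‖Z‖ ≤ l * Real.log ‖Q‖ := by
      rwa [le_div_iff_of_neg hlogQ] at h1
    rw [← Real.log_le_log_iff hZpos (zpow_pos hQpos l), Real.log_zpow]
    exact h2
  have hl2 : ‖Q‖ ^ (l + 1) ≤ ‖Z‖ := by
    have h1 : Real.log ‖Z‖ / Real.log ‖Q‖ < l + 1 := Int.lt_floor_add_one _
    have h2 : ((l : ℝ) + 1) * Real.log ‖Q‖ ≤ Real.log ‖Z‖ := by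
      rw [div_lt_iff_of_neg hlogQ] at h1
      exact h1.le
    rw [← Real.log_le_log_iff (zpow_pos hQpos _) hZpos, Real.log_zpow]
    push_cast
    exact h2
  -- reduce l modulo N
  set m : ℤ := -(l / N) with hm
  set k : ZMod N := (l : ZMod N) with hk
  have hkval : ((k.val : ℕ) : ℤ) = l + m * N := by
    rw [hk, ZMod.val_intCast, hm]
    have := Int.emod_add_mul_ediv l N
    rw [neg_mul]
    linarith [mul_comm (l / (N : ℤ)) (N : ℤ)]
  have hQN : Q ^ (N : ℤ) = exp (2 * Real.pi * I * y.1) := by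
    rw [hQ, ← Complex.exp_int_mul]
    congr 1
    have : (N : ℂ) ≠ 0 := by exact_mod_cast (show N ≠ 0 by omega)
    push_cast
    field_simp
  set z₀ : ℂ := y.2 + (m : ℂ) * y.1 + ((0 : ℤ) : ℂ) with hz₀
  have hz₀e : exp (2 * Real.pi * I * z₀) = Z * Q ^ (m * N : ℤ) := by
    rw [mul_comm m, zpow_mul, hQN, ← Complex.exp_int_mul, hZ, ← Complex.exp_add]
    congr 1
    rw [hz₀]
    push_cast
    ring
  have hGR : GR M t q (cout M c) x (y.1, z₀) :=
    htrans q (cout M c) (cout M c) x y (y.1, z₀) hx hy (rcov_latt t (cout M c) y.1 y.2 m 0)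
  set Y : ℂ := Z * Q ^ (m * N : ℤ) / Q ^ k.val with hY
  have hY0 : Y ≠ 0 := by
    rw [hY]
    exact div_ne_zero (mul_ne_zero hZ0 (zpow_ne_zero _ hQ0)) (pow_ne_zero _ hQ0)
  have hYl : Y = Z * Q ^ (-l) := by
    rw [hY, div_eq_mul_inv, ← zpow_natCast Q k.val, ← zpow_neg, mul_assoc, ← zpow_add₀ hQ0]
    congr 2
    rw [hkval]
    ring
  have hYn : ‖Y‖ ≤ 1 := by
    rw [hYl, norm_mul, norm_zpow, zpow_neg, ← div_eq_mul_inv, div_le_one (zpow_pos hQpos l)]
    exact hl1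
  have hXn : ‖Q / Y‖ ≤ 1 := by
    rw [hYl, norm_div, norm_mul, norm_zpow, div_le_one (by positivity)]
    have h3 : ‖Q‖ = ‖Q‖ ^ (l + 1) * ‖Q‖ ^ (-l) := by
      rw [← zpow_add₀ hQpos.ne']
      simp
    calc ‖Q‖ = ‖Q‖ ^ (l + 1) * ‖Q‖ ^ (-l) := h3
      _ ≤ ‖Z‖ * ‖Q‖ ^ (-l) := by
          apply mul_le_mul_of_nonneg_right hl2
          positivity
  have hXY : Q / Y * Y = Q := div_mul_cancel₀ _ hY0
  refine ⟨(c, k), (Q / Y, Y), ⟨hXn, hYn, ?_⟩, (y.1, z₀), ⟨hypos, ?_, ?_⟩, hGR⟩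
  · simp only [hXY]
    exact hQ1.le
  · simp only [hXY]
    exact hQ.symm
  · simp only [hXY]
    rw [hz₀e, hY, div_mul_cancel₀ _ (pow_ne_zero _ hQ0)]

lemma rcov_T (τ : ℂ) (j : ℤ) : mob (ModularGroup.T ^ j) τ = τ + j := by
  simp [mob, ModularGroup.coe_T_zpow]

theorem st_RCOV (hg : ST_GREQ) (hb : ST_BOR) (hd : ST_DL) : ST_RCOV := by
  intro M N hNOK t i x hx
  obtain ⟨h4, hN8⟩ := hNOK
  have hNpos : (0 : ℝ) < N := by exact_mod_cast (show 0 < N by omega)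
  have : NeZero N := ⟨by omega⟩
  obtain ⟨hrefl, hsymm, htrans⟩ := hg M N t
  have hpi := Real.pi_gt_three
  have hpi4 := Real.pi_lt_d2
  rcases i with q | ⟨c, k⟩
  · -- a point of the open part
    have hx : x ∈ UH N := hx
    have hxi : 0 < x.1.im := by linarith [hx.1]
    obtain ⟨γ, hγ⟩ := ModularGroup.exists_smul_mem_fd (⟨x.1, hxi⟩ : UpperHalfPlane)
    have hcoe : ((γ • (⟨x.1, hxi⟩ : UpperHalfPlane) : UpperHalfPlane) : ℂ) = mob γ x.1 := by
      rw [UpperHalfPlane.coe_specialLinearGroup_apply]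
      simp [mob]
    have hre : |(mob γ x.1).re| ≤ 1 / 2 := by
      rw [← hcoe]; exact hγ.2
    have him : 3 ≤ 4 * (mob γ x.1).im ^ 2 := by
      rw [← hcoe]; exact ModularGroup.three_le_four_mul_im_sq_of_mem_fd hγ
    obtain ⟨q', hq'⟩ := rcov_q q γ
    obtain ⟨y, hy, hy1, hpar⟩ := rcov_red hg t q x hxi γ q' hq'
    have hypos : 0 < y.1.im := (hsymm q q' x y hxi hy).1
    have hy17 : 17 / 20 ≤ y.1.im := by
      rw [← hy1] at him
      nlinarith
    by_cases hL : 4 * Real.pi * y.1.im / N ≤ 46 / 25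
    · left
      refine ⟨q', y, ⟨by rw [hy1]; exact hre, hy17, hL, hpar⟩, hy⟩
    · right
      push Not at hL
      obtain ⟨ck, p, hp, x₀, h1, h2⟩ := rcov_high hg hb hN8 t q' y hypos hL
      exact ⟨ck, p, hp, x₀, h1, htrans q q' (cout M ck.1) x y x₀ hxi hy h2⟩
  · -- a point of a node chart
    have hx : x ∈ UD := hx
    obtain ⟨hX, hY, hXY⟩ := hx
    have hn : ‖x.1 * x.2‖ = ‖x.1‖ * ‖x.2‖ := norm_mul _ _
    have hXY' : ‖x.1‖ * ‖x.2‖ < 2 / 5 := by rw [← hn]; exact hXY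
    by_cases hs : ‖x.1 * x.2‖ ≤ 399 / 1000
    · right
      by_cases hX1 : ‖x.1‖ ≤ 1
      · by_cases hY1 : ‖x.2‖ ≤ 1
        · exact ⟨(c, k), x, ⟨hX1, hY1, hs⟩, rfl, Or.inl ⟨rfl, rfl⟩⟩
        · push Not at hY1
          have hY0 : x.2 ≠ 0 := by
            intro h; rw [h, norm_zero] at hY1; linarith
          refine ⟨(c, k - 1), (x.2⁻¹, x.1 * x.2 ^ 2), ⟨?_, ?_, ?_⟩, rfl,
            Or.inr (Or.inl ⟨by ring, inv_mul_cancel₀ hY0, rfl⟩)⟩
          · simp only [norm_inv]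
            exact inv_le_one_of_one_le₀ hY1.le
          · simp only [norm_mul, norm_pow]
            rw [hn] at hs
            nlinarith [norm_nonneg x.1, norm_nonneg x.2]
          · have : x.2⁻¹ * (x.1 * x.2 ^ 2) = x.1 * x.2 := by field_simp
            simp only [this]
            exact hs
      · push Not at hX1
        have hX0 : x.1 ≠ 0 := by
          intro h; rw [h, norm_zero] at hX1; linarith
        refine ⟨(c, k + 1), (x.1 ^ 2 * x.2, x.1⁻¹), ⟨?_, ?_, ?_⟩, rfl,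
          Or.inr (Or.inr ⟨rfl, mul_inv_cancel₀ hX0, rfl⟩)⟩
        · simp only [norm_mul, norm_pow]
          rw [hn] at hs
          nlinarith [norm_nonneg x.1, norm_nonneg x.2]
        · simp only [norm_inv]
          exact inv_le_one_of_one_le₀ hX1.le
        · have : x.1 ^ 2 * x.2 * x.1⁻¹ = x.1 * x.2 := by field_simp
          simp only [this]
          exact hs
    · left
      push Not at hs
      have hne : x.1 * x.2 ≠ 0 := by
        intro h; rw [h, norm_zero] at hs; linarith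
      obtain ⟨⟨x₀, hx₀⟩, -⟩ := hd N (by omega) k x hne (by linarith)
      have hnm := rcov_norm k x x₀ hx₀
      have hL1 : 4 * Real.pi * x₀.1.im / N ≤ 46 / 25 := by
        by_contra hcon
        push Not at hcon
        have : Real.exp (-(4 * Real.pi * x₀.1.im / N) / 2) ≤ Real.exp (-(23 / 25)) :=
          Real.exp_le_exp.mpr (by linarith)
        rw [← hnm] at this
        linarith [rcov_exp]
      have hL2 : 7 / 10 ≤ (4 * Real.pi * x₀.1.im / N) / 2 := by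
        by_contra hcon
        push Not at hcon
        have h1 : Real.exp (-(7 / 10)) ≤ Real.exp (-(4 * Real.pi * x₀.1.im / N) / 2) :=
          Real.exp_le_exp.mpr (by linarith)
        rw [← hnm] at h1
        have h2 : Real.exp (-(7 / 10)) = Real.exp (-(7 / 20)) ^ 2 := by
          rw [← Real.exp_nat_mul]; norm_num
        have h3 := Real.add_one_le_exp (-(7 / 20))
        have h5 : (13 / 20 : ℝ) ≤ Real.exp (-(7 / 20)) := by linarith
        nlinarith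
      have him : 17 / 20 ≤ x₀.1.im := by
        have h1 : 7 / 5 * (N : ℝ) ≤ 4 * Real.pi * x₀.1.im := by
          rw [← le_div_iff₀ hNpos]; linarith
        have h2 : (8 : ℝ) ≤ N := by exact_mod_cast hN8
        by_contra hcon
        push Not at hcon
        have h3 := hx₀.1
        nlinarith
      set j : ℤ := -round x₀.1.re with hj
      obtain ⟨q', hq'⟩ := rcov_q (cout M c) (ModularGroup.T ^ j)
      obtain ⟨y, hy, hy1, hpar⟩ := rcov_red hg t (cout M c) x₀ hx₀.1 (ModularGroup.T ^ j) q' hq'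
      rw [rcov_T] at hy1
      refine ⟨q', y, ⟨?_, ?_, ?_, hpar⟩, ?_⟩
      · rw [hy1]
        simp only [Complex.add_re, Complex.intCast_re, hj]
        push_cast
        have := abs_sub_round x₀.1.re
        rwa [← sub_eq_add_neg]
      · rw [hy1]; simpa using him
      · rw [hy1]; simpa using hL1
      · exact ⟨x₀, hx₀, (hsymm _ _ _ _ hx₀.1 hy).2⟩

end RicP
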